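import Mathlib

/-!
# The painting game: simulation of several rounds by one round
-/

set_option autoImplicit false

namespace Pool.Agent.N703.PG

/-- A position of the painting game is a pair `(f, c)`: `f v` is the number of times that the vertex
`v` may still be presented (`0` if `v` is coloured or finished), `c` is the number of coloured
vertices. `Closed G k W` says that the predicate `W` on positions contains every position at which
the game is over with at least `k` coloured vertices, and every position at which each choice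
`U` of Mr. Paint has an answer `C` of Mrs. Correct leading to `W`. -/
def Closed {V : Type} [DecidableEq V] (G : SimpleGraph V) (k : ℕ) (W : (V → ℕ) → ℕ → Prop) : Prop :=
  ∀ (f : V → ℕ) (c : ℕ),
    (((∀ v, f v = 0) ∧ k ≤ c) ∨
      ((∃ v, f v ≠ 0) ∧
        ∀ U : Finset V, U.Nonempty → (∀ v ∈ U, f v ≠ 0) →
          ∃ C : Finset V, C ⊆ U ∧ G.IsIndepSet (C : Set V) ∧
            W (fun v => if v ∈ C then 0 else if v ∈ U then f v - 1 else f v)
              (c + C.card))) → W f c

/-- Mrs. Correct wins from the position `(f, c)`, i.e. she can force at least `k` coloured vertices. -/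
def Win {V : Type} [DecidableEq V] (G : SimpleGraph V) (k : ℕ) (f : V → ℕ) (c : ℕ) : Prop :=
  ∀ W : (V → ℕ) → ℕ → Prop, Closed G k W → W f c

/-- Mrs. Correct can force at least `k` coloured vertices in the game in which every vertex may be
presented `t` times (that is, it has `t - 1` erasers). -/
def Forces {V : Type} [DecidableEq V] (G : SimpleGraph V) (t k : ℕ) : Prop :=
  Win G k (fun _ => t) 0

section

variable {V : Type} [DecidableEq V] {G : SimpleGraph V} {k : ℕ}

theorem closed_win : Closed G k (Win G k) := by
  intro f c h W hW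
  apply hW
  rcases h with h | ⟨h1, h2⟩
  · exact Or.inl h
  · refine Or.inr ⟨h1, fun U hU hU' => ?_⟩
    obtain ⟨C, hC1, hC2, hC3⟩ := h2 U hU hU'
    exact ⟨C, hC1, hC2, hC3 W hW⟩

theorem win_inv {f : V → ℕ} {c : ℕ} (h : Win G k f c) :
    ((∀ v, f v = 0) ∧ k ≤ c) ∨
      ((∃ v, f v ≠ 0) ∧
        ∀ U : Finset V, U.Nonempty → (∀ v ∈ U, f v ≠ 0) →
          ∃ C : Finset V, C ⊆ U ∧ G.IsIndepSet (C : Set V) ∧
            Win G k (fun v => if v ∈ C then 0 else if v ∈ U then f v - 1 else f v)
              (c + C.card)) := by
  refine h (fun f c => ((∀ v, f v = 0) ∧ k ≤ c) ∨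
      ((∃ v, f v ≠ 0) ∧
        ∀ U : Finset V, U.Nonempty → (∀ v ∈ U, f v ≠ 0) →
          ∃ C : Finset V, C ⊆ U ∧ G.IsIndepSet (C : Set V) ∧
            Win G k (fun v => if v ∈ C then 0 else if v ∈ U then f v - 1 else f v)
              (c + C.card))) ?_
  intro f c h
  rcases h with h | ⟨h1, h2⟩
  · exact Or.inl h
  · refine Or.inr ⟨h1, fun U hU hU' => ?_⟩
    obtain ⟨C, hC1, hC2, hC3⟩ := h2 U hU hU'
    exact ⟨C, hC1, hC2, closed_win _ _ hC3⟩

/-- `r` rounds of the simulated game, of which one answer is kept -/
theorem rounds (n r : ℕ) (U : Finset V) (F : V → ℕ) (cc : ℕ) (h : Win G n F cc) :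
    ∃ (F' : V → ℕ) (cc' : ℕ) (C : Finset V), C ⊆ U ∧ G.IsIndepSet (C : Set V) ∧ Win G n F' cc' ∧
      cc' ≤ cc + r * C.card ∧ (∀ v, F' v ≤ F v) ∧ (∀ v ∈ U, F' v ≤ F v - r) ∧
      (∀ v ∈ C, F' v = 0) := by
  induction r with
  | zero =>
    refine ⟨F, cc, ∅, by simp, by simp, h, by simp, fun v => le_rfl, fun v _ => by simp, by simp⟩
  | succ r ih =>
    obtain ⟨F', cc', C, h1, h2, h3, h4, h5, h6, h7⟩ := ih
    by_cases hne : (U.filter fun v => F' v ≠ 0).Nonempty
    · have hex : ∃ v, F' v ≠ 0 := by
        obtain ⟨v, hv⟩ := hne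
        exact ⟨v, (Finset.mem_filter.1 hv).2⟩
      rcases win_inv h3 with ⟨h8, _⟩ | ⟨_, h8⟩
      · obtain ⟨v, hv⟩ := hex
        exact absurd (h8 v) hv
      obtain ⟨C', hC1, hC2, hC3⟩ := h8 _ hne (fun v hv => (Finset.mem_filter.1 hv).2)
      have hC1' : C' ⊆ U := hC1.trans (Finset.filter_subset _ _)
      have hF1 : ∀ v, (if v ∈ C' then 0 else if v ∈ U.filter (fun v => F' v ≠ 0) then F' v - 1
          else F' v) ≤ F' v := by
        intro v
        split_ifs <;> omega
      have hF2 : ∀ v ∈ U, (if v ∈ C' then 0 else if v ∈ U.filter (fun v => F' v ≠ 0) then F' v - 1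
          else F' v) ≤ F v - (r + 1) := by
        intro v hv
        have h9 := h6 v hv
        split_ifs with h10 h11
        · omega
        · omega
        · rw [Finset.mem_filter, not_and, not_not] at h11
          have := h11 hv
          omega
      rcases le_total C.card C'.card with hc | hc
      · refine ⟨_, _, C', hC1', hC2, hC3, ?_, fun v => (hF1 v).trans (h5 v), hF2, ?_⟩
        · have : r * C.card ≤ r * C'.card := Nat.mul_le_mul_left _ hc
          have : (r + 1) * C'.card = r * C'.card + C'.card := by ring
          omega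
        · intro v hv
          rw [if_pos hv]
      · refine ⟨_, _, C, h1, h2, hC3, ?_, fun v => (hF1 v).trans (h5 v), hF2, ?_⟩
        · have : (r + 1) * C.card = r * C.card + C.card := by ring
          omega
        · intro v hv
          have h9 := h7 v hv
          have h10 := hF1 v
          omega
    · refine ⟨F', cc', C, h1, h2, h3, ?_, h5, ?_, h7⟩
      · have : (r + 1) * C.card = r * C.card + C.card := by ring
        omega
      · intro v hv
        have : F' v = 0 := by
          by_contra hcon
          exact hne ⟨v, Finset.mem_filter.2 ⟨hv, hcon⟩⟩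
        omega

variable [Fintype V]

/-- the simulation -/
theorem sim (n m : ℕ) (hk : ∀ c, n ≤ m * c → k ≤ c) :
    ∀ (N : ℕ) (f : V → ℕ) (c : ℕ) (F : V → ℕ) (cc : ℕ), ∑ v, f v ≤ N → (∀ v, F v ≤ m * f v) →
      cc ≤ m * c → Win G n F cc → Win G k f c := by
  intro N
  induction N with
  | zero =>
    intro f c F cc hN hF hc hW
    have hf : ∀ v, f v = 0 := by
      intro v
      have := Finset.single_le_sum (f := f) (fun _ _ => Nat.zero_le _) (Finset.mem_univ v)
      omega
    have hF0 : ∀ v, F v = 0 := by
      intro v
      have := hF v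
      rw [hf v] at this
      omega
    apply closed_win
    left
    refine ⟨hf, ?_⟩
    rcases win_inv hW with ⟨_, h⟩ | ⟨⟨v, hv⟩, _⟩
    · exact hk c (h.trans hc)
    · exact absurd (hF0 v) hv
  | succ N ih =>
    intro f c F cc hN hF hc hW
    by_cases hf : ∀ v, f v = 0
    · have hF0 : ∀ v, F v = 0 := by
        intro v
        have := hF v
        rw [hf v] at this
        omega
      apply closed_win
      left
      refine ⟨hf, ?_⟩
      rcases win_inv hW with ⟨_, h⟩ | ⟨⟨v, hv⟩, _⟩
      · exact hk c (h.trans hc)
      · exact absurd (hF0 v) hv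
    · apply closed_win
      right
      push Not at hf
      refine ⟨hf, fun U hU hU' => ?_⟩
      obtain ⟨F', cc', C, h1, h2, h3, h4, h5, h6, h7⟩ := rounds n m U F cc hW
      refine ⟨C, h1, h2, ih _ _ F' cc' ?_ ?_ ?_ h3⟩
      · obtain ⟨u, hu⟩ := hU
        have hlt : ∑ v, (if v ∈ C then 0 else if v ∈ U then f v - 1 else f v) < ∑ v, f v := by
          apply Finset.sum_lt_sum
          · intro v _
            split_ifs <;> omega
          · refine ⟨u, Finset.mem_univ _, ?_⟩
            have := hU' u hu
            rw [if_pos hu]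
            split_ifs <;> omega
        omega
      · intro v
        have h8 := hF v
        split_ifs with h9 h10
        · rw [h7 v h9]
          omega
        · have h11 := h6 v h10
          have h12 : m * (f v - 1) = m * f v - m := by
            rw [Nat.mul_sub, mul_one]
          omega
        · exact (h5 v).trans h8
      · have : m * (c + C.card) = m * c + m * C.card := by ring
        omega

/-- the theorem -/
theorem main (s t m : ℕ) (hm : 1 ≤ m) (hs : s ≤ t * m) (h : Forces G s (Fintype.card V)) :
    ∃ k, Fintype.card V ≤ k * m ∧ Forces G t k := by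
  refine ⟨(Fintype.card V + m - 1) / m, ?_, ?_⟩
  · have h1 := Nat.div_add_mod (Fintype.card V + m - 1) m
    have h2 := Nat.mod_lt (Fintype.card V + m - 1) (show 0 < m by omega)
    rw [mul_comm]
    omega
  · refine sim (Fintype.card V) m ?_ _ _ 0 (fun _ => s) 0 le_rfl ?_ (by simp) h
    · intro c hc
      have : (Fintype.card V + m - 1) / m ≤ (m * c + (m - 1)) / m :=
        Nat.div_le_div_right (by omega)
      refine this.trans ?_
      rw [Nat.mul_add_div (by omega), Nat.div_eq_of_lt (by omega)]
      omega
    · intro v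
      rw [mul_comm]
      exact hs

end

end Pool.Agent.N703.PG
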